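import Pool.Agent.H490R2.Family

/-!
# A pseudoprime between `x` and `2x`

For every integer `x > 170` there is a base-2 pseudoprime `n` with `x < n < 2x`.
-/

namespace Pool.Agent.Results.MP_c35068_nt.PspBetween

open Pool.Agent.H490R2

/-- `n` is a pseudoprime (to base 2): a composite `n > 1` with `2 ^ (n - 1) ≡ 1 (mod n)`. -/
def IsPseudoprime (n : ℕ) : Prop := 1 < n ∧ ¬ n.Prime ∧ 2 ^ (n - 1) ≡ 1 [MOD n]

theorem exp_bound (a : ℕ) (ha : 7 ≤ a) : 6 * a + 14 ≤ 2 ^ (a - 1) := by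
  obtain ⟨b, rfl⟩ : ∃ b, a = b + 7 := ⟨a - 7, by omega⟩
  rw [show b + 7 - 1 = b + 6 by omega]
  induction b with
  | zero => norm_num
  | succ b ih =>
    have := ih (by omega)
    rw [show b + 1 + 6 = (b + 6) + 1 by ring, pow_succ]
    omega

theorem cov_gen (M : ℕ) (hM : 200000000 ≤ M) : Cov (2 ^ (M - 1)) (2 ^ M) := by
  by_cases h1 : M < 2 ^ 32
  · exact cov_fam 5 2 M (by norm_num) (by norm_num) (by norm_num) (by norm_num) (by norm_num)
      (le_trans (by norm_num) hM) (by norm_num; norm_num at h1; exact h1)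
  by_cases h2 : M < 2 ^ 64
  · exact cov_fam 6 2 M (by norm_num) (by norm_num) (by norm_num) (by norm_num) (by norm_num)
      (le_trans (by norm_num) (not_lt.1 h1)) (by norm_num; norm_num at h2; exact h2)
  have h3 : 2 ^ 64 ≤ M := not_lt.1 h2
  have hM0 : M ≠ 0 := by
    intro h; rw [h] at h3; norm_num at h3
  set l := Nat.log 2 M with hl
  have hl1 : 2 ^ l ≤ M := Nat.pow_log_le_self 2 hM0
  have hl2 : M < 2 ^ (l + 1) := Nat.lt_pow_succ_log_self (by norm_num) M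
  have hl64 : 64 ≤ l := (Nat.le_log_iff_pow_le (by norm_num) hM0).2 h3
  have hl0 : l ≠ 0 := by omega
  set k := Nat.log 2 l with hk
  have hk1 : 2 ^ k ≤ l := Nat.pow_log_le_self 2 hl0
  have hk2 : l < 2 ^ (k + 1) := Nat.lt_pow_succ_log_self (by norm_num) l
  have hk6 : 6 ≤ k := (Nat.le_log_iff_pow_le (by norm_num) hl0).2 (by omega)
  have hb := exp_bound (k + 1) (by omega)
  rw [Nat.add_sub_cancel] at hb
  have hMu : M < 2 ^ 2 ^ (k + 1) := lt_of_lt_of_le hl2 (Nat.pow_le_pow_right (by norm_num) hk2)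
  have hMl : 2 ^ 2 ^ k ≤ M := le_trans (Nat.pow_le_pow_right (by norm_num) hk1) hl1
  have hk1' : 2 ^ (k + 1) = 2 * 2 ^ k := by ring
  refine cov_fam (k + 1) (k + 1) M (by omega) (by omega) (by omega) ?_ ?_ ?_ hMu
  · calc 2 ^ (k + 1 + 1) ≤ 2 ^ (2 * (k + 1)) := Nat.pow_le_pow_right (by norm_num) (by omega)
      _ = 4 ^ (k + 1) := by rw [pow_mul]; norm_num
      _ ≤ 23 ^ (k + 1) := Nat.pow_le_pow_left (by norm_num) _
  · have h4 : 2 ^ 2 ^ (k + 1) = 2 ^ 2 ^ k * 2 ^ 2 ^ k := by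
      rw [← pow_add]; congr 1; ring
    have h5 : 2 ^ k < 2 ^ 2 ^ k := Nat.lt_two_pow_self
    have h6 : 64 ≤ 2 ^ k := by
      calc 64 = 2 ^ 6 := by norm_num
        _ ≤ 2 ^ k := Nat.pow_le_pow_right (by norm_num) hk6
    rw [h4, hk1']
    generalize 2 ^ 2 ^ k = z at *
    generalize 2 ^ k = y at *
    nlinarith
  · refine le_trans ?_ hMl
    have h7 : 23 ^ (k + 1) ≤ 2 ^ (5 * (k + 1)) := by
      rw [pow_mul]
      exact Nat.pow_le_pow_left (by norm_num) _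
    have h8 : 2 ^ (6 * (k + 1) + 14) ≤ 2 ^ 2 ^ k := Nat.pow_le_pow_right (by norm_num) hb
    refine le_trans ?_ h8
    have h9 : 2 ^ (6 * (k + 1) + 14) = 2 * (2 ^ (k + 1 + 13) * 2 ^ (5 * (k + 1))) := by
      rw [← pow_add, ← pow_succ']; congr 1; ring
    rw [h9]
    have h10 : 2 ^ (k + 1 + 13) * 23 ^ (k + 1) ≤ 2 ^ (k + 1 + 13) * 2 ^ (5 * (k + 1)) :=
      Nat.mul_le_mul_left _ h7
    have h11 : 2 ^ (k + 1 + 13) = 8192 * 2 ^ (k + 1) := by
      rw [pow_add]; norm_num [mul_comm]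
    have h12 : 1 ≤ 2 ^ (k + 1) := Nat.one_le_pow _ _ (by norm_num)
    have h13 : 2 ^ (k + 1) ≤ 2 ^ (5 * (k + 1)) := Nat.pow_le_pow_right (by norm_num) (by omega)
    have h14 : 4096 * 2 ^ (5 * (k + 1)) ≤ 2 ^ (k + 1 + 13) * 2 ^ (5 * (k + 1)) := by
      apply Nat.mul_le_mul_right
      omega
    omega

theorem cov_main (x : ℕ) (hx : 170 < x) : ∃ n, Psp n ∧ x < n ∧ n < 2 * x := by
  have hx0 : x ≠ 0 := by omega
  set m := Nat.log 2 x with hm
  have h1 : 2 ^ m ≤ x := Nat.pow_log_le_self 2 hx0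
  have h2 : x < 2 ^ (m + 1) := Nat.lt_pow_succ_log_self (by norm_num) x
  by_cases h : m + 1 ≤ 200000000
  · exact cov_small (m + 1) h x hx h2
  · have := cov_gen (m + 1) (by omega) x (by rw [Nat.add_sub_cancel]; exact h1) h2
    exact this

/-- For every integer `x > 170` there is a pseudoprime `n` with `x < n < 2 * x`. -/
theorem result : ∀ x : ℤ, 170 < x → ∃ n : ℕ, IsPseudoprime n ∧ x < (n : ℤ) ∧ (n : ℤ) < 2 * x := by
  intro x hx
  obtain ⟨y, rfl⟩ := Int.eq_ofNat_of_zero_le (by omega : 0 ≤ x)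
  obtain ⟨n, h1, h2, h3⟩ := cov_main y (by omega)
  exact ⟨n, h1, by exact_mod_cast h2, by exact_mod_cast h3⟩

end Pool.Agent.Results.MP_c35068_nt.PspBetween
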